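import Pool.Agent.Helper75.FS.St

/-!
# Project FS (MP_e73f90_co), module B2: codes exist above the threshold
-/

set_option autoImplicit false

namespace Pool.Agent.Helper13.FS

open Filter Pool.Agent.Helper75.FS

theorem hB2 (hA3 : StA3) (hA6 : StA6) (hB1 : StB1) : StB2 := by
  intro r hr ε hε
  obtain ⟨-, hmod, -, hex⟩ := hB1 r hr
  have h1 : ∀ ρ : ℕ, ∃ n c t : ℕ, Code n r c ∧ c ≡ ρ [MOD r] ∧
      ((n : ℝ) + r) ^ r / ((r.factorial : ℝ) * 2 ^ c) < LL r ρ + ε ∧ n + r ≤ 2 ^ t := by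
    intro ρ
    obtain ⟨n, c, h1, h2, h3⟩ := hex ρ ε hε
    exact ⟨n, c, n + r, h1, h2, h3, Nat.lt_two_pow_self.le⟩
  choose n0 c0 t0 hcode hc0 hlt ht0 using h1
  refine ⟨∑ ρ ∈ Finset.range r, (c0 ρ + r * t0 ρ), ?_⟩
  intro c hc n hn
  set ρ := c % r with hρ
  have hρr : ρ < r := Nat.mod_lt _ hr
  have h2 : c0 ρ + r * t0 ρ ≤ c :=
    (Finset.single_le_sum (f := fun ρ => c0 ρ + r * t0 ρ) (fun _ _ => Nat.zero_le _)
      (Finset.mem_range.mpr hρr)).trans hc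
  have h3 : c0 ρ ≡ c [MOD r] := (hc0 ρ).trans (Nat.mod_modEq c r)
  have h4 : r ∣ c - c0 ρ := (Nat.modEq_iff_dvd' (by omega)).mp h3
  obtain ⟨t, ht⟩ := h4
  have h5 : c = c0 ρ + r * t := by omega
  have h6 : t0 ρ ≤ t := by
    have h7 : r * t0 ρ ≤ r * t := by omega
    exact Nat.le_of_mul_le_mul_left h7 hr
  have h8 : n0 ρ + r ≤ 2 ^ t := (ht0 ρ).trans (Nat.pow_le_pow_right (by norm_num) h6)
  have h9 := hA6 (n0 ρ) r (c0 ρ) t (hcode ρ) h8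
  rw [← h5] at h9
  refine hA3 _ _ _ _ ?_ h9
  have h10 : LL r c = LL r ρ := hmod c ρ (Nat.mod_modEq c r).symm
  have h11 : (0 : ℝ) < (r.factorial : ℝ) * 2 ^ c0 ρ := by positivity
  have h12 := hlt ρ
  rw [div_lt_iff₀ h11] at h12
  have h13 : (((n0 ρ + r) * 2 ^ t : ℕ) : ℝ) ^ r < (n : ℝ) ^ r := by
    calc (((n0 ρ + r) * 2 ^ t : ℕ) : ℝ) ^ r = ((n0 ρ : ℝ) + r) ^ r * 2 ^ (r * t) := by
          push_cast
          rw [mul_pow, ← pow_mul, mul_comm t r]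
      _ < (LL r ρ + ε) * ((r.factorial : ℝ) * 2 ^ c0 ρ) * 2 ^ (r * t) :=
          mul_lt_mul_of_pos_right h12 (by positivity)
      _ = (LL r c + ε) * ((r.factorial : ℝ) * 2 ^ c) := by
          rw [h10, h5, pow_add]
          ring
      _ ≤ (n : ℝ) ^ r := hn
  have h14 : (((n0 ρ + r) * 2 ^ t : ℕ) : ℝ) < (n : ℝ) := lt_of_pow_lt_pow_left₀ r (by positivity) h13
  exact_mod_cast h14.le

end Pool.Agent.Helper13.FS
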